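import Mathlib

set_option autoImplicit false

namespace Pool.Agent.Results.MP_bf8bcd_co.Counter

open Matrix

/-- `C` is an MRD code in `M_n(F)` with minimum rank distance `d` -/
def IsMRD {F : Type} [Field F] [Fintype F] {n : ℕ} (C : Set (Matrix (Fin n) (Fin n) F)) (d : ℕ) : Prop :=
  (∀ A ∈ C, ∀ B ∈ C, A ≠ B → d ≤ (A - B).rank) ∧ (∃ A ∈ C, ∃ B ∈ C, A ≠ B ∧ (A - B).rank = d) ∧
    C.ncard = Fintype.card F ^ (n * (n - d + 1))

inductive F4 | o | i | w | v
  deriving DecidableEq, Fintype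

namespace F4

instance : Zero F4 := ⟨o⟩
instance : One F4 := ⟨i⟩
instance : Neg F4 := ⟨id⟩
instance : Add F4 := ⟨fun a b => match a, b with
  | o, x => x | x, o => x | i, i => o | w, w => o | v, v => o
  | i, w => v | w, i => v | i, v => w | v, i => w | w, v => i | v, w => i⟩
instance : Mul F4 := ⟨fun a b => match a, b with
  | o, _ => o | i, x => x | _, o => o | x, i => x | w, w => v | v, v => w | w, v => i | v, w => i⟩
instance : Inv F4 := ⟨fun a => match a with | o => o | i => i | w => v | v => w⟩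
instance : Field F4 := Field.ofMinimalAxioms F4 (by decide) (by decide) (by decide) (by decide) (by decide)
  (by decide) (by decide) (by decide) (by decide) ⟨o, i, by decide⟩

end F4

def C : AddSubgroup (Matrix (Fin 3) (Fin 3) F4) where
  carrier := {X | X 0 0 = X 1 1 + (X 2 1 + X 2 2) * (X 2 1 + X 2 2) ∧ X 0 1 = X 1 2 + X 2 0 * X 2 0 ∧
    X 0 2 = X 1 0 + X 1 2 + X 2 1 * X 2 1}
  zero_mem' := ⟨rfl, rfl, rfl⟩
  add_mem' := fun {X Y} ⟨a, b, c⟩ ⟨d, e, f⟩ => by
    have t : (1 + 1 : F4) = 0 := by decide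
    simp only [Set.mem_ofPred_eq, Matrix.add_apply]
    exact ⟨by linear_combination a + d - (X 2 1 + X 2 2) * (Y 2 1 + Y 2 2) * t,
      by linear_combination b + e - X 2 0 * Y 2 0 * t, by linear_combination c + f - X 2 1 * Y 2 1 * t⟩
  neg_mem' := fun h => h

set_option synthInstance.maxSize 2000 in
lemma r1 : ∀ a b c d e f : F4, a * d = b * e + (c * e + c * f) * (c * e + c * f) → a * e = b * f + c * d * (c * d) →
    a * f = b * d + b * f + c * e * (c * e) → a = 0 ∧ b = 0 ∧ c = 0 ∨ d = 0 ∧ e = 0 ∧ f = 0 := by decide +kernel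

lemma r2 (X : Matrix (Fin 3) (Fin 3) F4) (h : X ∈ C) (h0 : X ≠ 0) : 2 ≤ X.rank := by
  by_contra! h1
  rw [rank_eq_finrank_span_row, Nat.lt_succ_iff, finrank_le_one_iff] at h1
  obtain ⟨⟨v, hv⟩, h1⟩ := h1
  choose u hu using fun i => h1 ⟨X i, Submodule.subset_span ⟨i, rfl⟩⟩
  have e : ∀ i j, X i j = u i * v j := fun i j => (congrFun (congrArg Subtype.val (hu i)) j).symm
  obtain ⟨a, b, c⟩ := h
  simp only [e] at a b c
  refine h0 (ext fun i j => ?_)
  rcases r1 _ _ _ _ _ _ a b c with ⟨a, b, c⟩ | ⟨a, b, c⟩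
  · fin_cases i <;> simp [e, a, b, c]
  · fin_cases j <;> simp [e, a, b, c]

lemma sing (X : Matrix (Fin 3) (Fin 3) F4) (h : ∀ c : F4, c • X ∈ C) : ¬ IsUnit X := fun hu => by
  obtain ⟨a, b, c⟩ := h 1
  obtain ⟨d, e, f⟩ := h .w
  simp only [Matrix.smul_apply, smul_eq_mul, one_mul] at a b c d e f
  have k : ∀ x y z : F4, x = y + z * z → .w * x = .w * y + .w * z * (.w * z) → z = 0 := by decide
  have h0 := k _ _ _ b e
  have h1 := k _ _ _ c (by rw [f, mul_add])
  have h2 := k _ _ _ a (by rw [d, mul_add .w (X 2 1)])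
  rw [h1, zero_add] at h2
  exact ((isUnit_iff_isUnit_det X).1 hu).ne_zero (by rw [det_fin_three, h0, h1, h2]; ring)

lemma card : Nat.card C = 4096 := by
  refine (Nat.card_congr (β := (Fin 3 → F4) × (Fin 3 → F4)) ⟨fun X => (X.1 1, X.1 2), fun p =>
    ⟨of ![![p.1 1 + (p.2 1 + p.2 2) * (p.2 1 + p.2 2), p.1 2 + p.2 0 * p.2 0, p.1 0 + p.1 2 + p.2 1 * p.2 1],
      p.1, p.2], ⟨rfl, rfl, rfl⟩⟩, fun ⟨X, a, b, c⟩ => Subtype.ext (ext fun i j => ?_), fun _ => rfl⟩).trans ?_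
  · rw [Nat.card_prod, Nat.card_fun, Nat.card_eq_fintype_card, show Fintype.card F4 = 4 from rfl]; simp
  · fin_cases i
    · fin_cases j
      exacts [a.symm, b.symm, c.symm]
    all_goals rfl

theorem result : ∃ (F : Type) (_ : Field F) (_ : Fintype F) (C : AddSubgroup (Matrix (Fin 3) (Fin 3) F)),
    Fintype.card F = 4 ∧ IsMRD (C : Set (Matrix (Fin 3) (Fin 3) F)) 2 ∧
    ∀ (K : Type) [Field K] [Algebra F K] (b : Module.Basis (Fin 3) F K) (A B : Matrix (Fin 3) (Fin 3) F)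
      (σ : F ≃+* F), IsUnit A → IsUnit B →
      (¬ ∀ a : K, A * (Algebra.leftMulMatrix b a).map σ * B ∈ C) ∧
      ¬ ∀ a : K, A * ((Algebra.leftMulMatrix b a).map σ)ᵀ * B ∈ C := by
  have ne : (!![1, 0, 0; 0, 1, 0; 0, 0, 0] : Matrix (Fin 3) (Fin 3) F4) ≠ 0 := fun h =>
    one_ne_zero (congrFun (congrFun h 0) 0)
  refine ⟨F4, inferInstance, inferInstance, C, rfl, ⟨fun A a B b h => r2 _ (sub_mem a b) (sub_ne_zero.2 h),
    ⟨!![1, 0, 0; 0, 1, 0; 0, 0, 0], ⟨rfl, rfl, rfl⟩, 0, zero_mem _, ne, ?_⟩, ?_⟩, fun K _ _ b A B σ hA hB => ?_⟩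
  · rw [sub_zero]
    refine le_antisymm ?_ (r2 _ ⟨rfl, rfl, rfl⟩ ne)
    rw [show (!![1, 0, 0; 0, 1, 0; 0, 0, 0] : Matrix (Fin 3) (Fin 3) F4) =
      (!![1, 0; 0, 1; 0, 0] : Matrix (Fin 3) (Fin 2) F4) * (!![1, 0, 0; 0, 1, 0] : Matrix (Fin 2) (Fin 3) F4) by
        ext i j; fin_cases i <;> fin_cases j <;> simp [mul_apply, Fin.sum_univ_two]]
    exact (rank_mul_le_left _ _).trans (rank_le_width _)
  · rw [show Fintype.card F4 = 4 from rfl]; exact (Nat.card_coe_set_eq _).symm.trans (card.trans (by norm_num))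
  · have e : ∀ c : F4, (Algebra.leftMulMatrix b (algebraMap F4 K (σ.symm c))).map σ = c • 1 := fun c => by
      rw [AlgHom.commutes]
      ext i j
      by_cases h : i = j <;> simp [algebraMap_matrix_apply, h]
    refine ⟨fun h => sing (A * B) (fun c => ?_) (hA.mul hB), fun h => sing (A * B) (fun c => ?_) (hA.mul hB)⟩ <;>
    · have := h (algebraMap F4 K (σ.symm c))
      rw [e] at this
      simpa using this

end Pool.Agent.Results.MP_bf8bcd_co.Counter
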